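import Mathlib
import Pool.Agent.X140.Flat

/-!
# Graphs of time-changed Brownian motions without Rajchman measures
-/

namespace Pool.Agent.Results.MP_4f24d6_pr.NoRajchman

open MeasureTheory ProbabilityTheory Filter Topology Set
open Pool.Agent.X140.Flat
open scoped NNReal ENNReal

/-- The Fourier transform of a measure on the plane. -/
noncomputable def ft (μ : Measure (ℝ × ℝ)) (ξ : ℝ × ℝ) : ℂ :=
  ∫ x : ℝ × ℝ, Complex.exp (-(2 * Real.pi * Complex.I * ((ξ.1 * x.1 + ξ.2 * x.2 : ℝ) : ℂ))) ∂μ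

/-- Rajchman measures on the plane: nonzero finite measures whose Fourier transform tends to `0`
at infinity. -/
def IsRajchman (μ : Measure (ℝ × ℝ)) : Prop :=
  μ ≠ 0 ∧ IsFiniteMeasure μ ∧ Tendsto (ft μ) (cocompact (ℝ × ℝ)) (𝓝 0)

/-- The graph of `X` over `[0,1]`. -/
def graph (X : ℝ → ℝ) : Set (ℝ × ℝ) := {p | p.1 ∈ Icc (0 : ℝ) 1 ∧ p.2 = X p.1}

/-! ### Simultaneous approximation -/

theorem dirichlet (N Q : ℕ) (hQ : 0 < Q) (a : Fin N → ℝ) :
    ∃ q : ℕ, 1 ≤ q ∧ q ≤ Q ^ N ∧ ∀ i, ∃ p : ℤ, |(q : ℝ) * a i - p| ≤ 1 / Q := by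
  have hQ' : (0 : ℝ) < Q := by exact_mod_cast hQ
  have hlt : ∀ (k : ℕ) (i : Fin N), ⌊Int.fract ((k : ℝ) * a i) * Q⌋₊ < Q := by
    intro k i
    rw [Nat.floor_lt (mul_nonneg (Int.fract_nonneg _) hQ'.le)]
    have := Int.fract_lt_one ((k : ℝ) * a i)
    nlinarith
  set φ : Fin (Q ^ N + 1) → (Fin N → Fin Q) := fun k i => ⟨_, hlt k i⟩ with hφ
  obtain ⟨k, l, hkl, he⟩ := Fintype.exists_ne_map_eq_of_card_lt φ (by simp)
  wlog hlt' : k < l generalizing k l with H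
  · exact H l k (Ne.symm hkl) he.symm (lt_of_le_of_ne (not_lt.mp hlt') (Ne.symm hkl))
  have hkl' : (k : ℕ) < l := hlt'
  refine ⟨(l : ℕ) - k, by omega, by have := l.2; omega, fun i => ?_⟩
  have hf : ⌊Int.fract (((k : ℕ) : ℝ) * a i) * Q⌋₊ = ⌊Int.fract (((l : ℕ) : ℝ) * a i) * Q⌋₊ := by
    have := congrFun he i
    simpa [hφ] using this
  refine ⟨⌊((l : ℕ) : ℝ) * a i⌋ - ⌊((k : ℕ) : ℝ) * a i⌋, ?_⟩
  have e : ((((l : ℕ) - k : ℕ) : ℝ) * a i - ((⌊((l : ℕ) : ℝ) * a i⌋ - ⌊((k : ℕ) : ℝ) * a i⌋ : ℤ) : ℝ))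
      = Int.fract (((l : ℕ) : ℝ) * a i) - Int.fract (((k : ℕ) : ℝ) * a i) := by
    rw [Nat.cast_sub hkl'.le]
    unfold Int.fract
    push_cast
    ring
  rw [e]
  set x := Int.fract (((l : ℕ) : ℝ) * a i) with hx
  set y := Int.fract (((k : ℕ) : ℝ) * a i) with hy
  have x0 : 0 ≤ x * Q := mul_nonneg (Int.fract_nonneg _) hQ'.le
  have y0 : 0 ≤ y * Q := mul_nonneg (Int.fract_nonneg _) hQ'.le
  have a1 := Nat.floor_le x0
  have a2 := Nat.lt_floor_add_one (x * Q)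
  have a3 := Nat.floor_le y0
  have a4 := Nat.lt_floor_add_one (y * Q)
  rw [hf] at a3 a4
  rw [abs_le]
  constructor
  · rw [show -(1 / (Q : ℝ)) = (-1) / Q by ring, div_le_iff₀ hQ']
    linarith
  · rw [le_div_iff₀ hQ']
    linarith

/-! ### Cosine bounds -/

theorem cos_near {y c : ℝ} (p : ℤ) (hc : 0 ≤ c) (h : |y - p| ≤ c) :
    1 - (6.3 * c) ^ 2 / 2 ≤ Real.cos (2 * Real.pi * y) := by
  have e : Real.cos (2 * Real.pi * y) = Real.cos (2 * Real.pi * (y - p)) := by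
    rw [mul_sub, show 2 * Real.pi * (p : ℝ) = (p : ℝ) * (2 * Real.pi) by ring,
      Real.cos_sub_int_mul_two_pi]
  rw [e]
  refine le_trans ?_ (Real.one_sub_sq_div_two_le_cos)
  have h1 : |2 * Real.pi * (y - p)| ≤ 6.3 * c := by
    rw [abs_mul, abs_of_pos Real.two_pi_pos]
    have := Real.pi_lt_d2
    have := Real.pi_pos
    have := abs_nonneg (y - p)
    nlinarith
  have h2 : (2 * Real.pi * (y - p)) ^ 2 ≤ (6.3 * c) ^ 2 := by
    rw [← sq_abs (2 * Real.pi * (y - p))]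
    exact pow_le_pow_left₀ (abs_nonneg _) h1 2
  linarith

/-- The majorant. -/
noncomputable def maj (θ : ℝ) : ℝ := ((1 + Real.cos θ) / 1.9) ^ 2

theorem maj_eq (θ : ℝ) :
    maj θ = (3 / 2 + 2 * Real.cos θ + 1 / 2 * Real.cos (2 * θ)) / 3.61 := by
  unfold maj
  rw [Real.cos_two_mul]
  ring

theorem maj_nonneg (θ : ℝ) : 0 ≤ maj θ := sq_nonneg _

/-- The tolerance at level `m`. -/
noncomputable def del (m : ℕ) : ℝ := 1 / (100 * ((m + 1) * 100 ^ (16 ^ m)))

theorem del_pos (m : ℕ) : 0 < del m := by unfold del; positivity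

/-- The frequency at level `m`. -/
theorem exists_freq {X : ℝ → ℝ} {m : ℕ}
    (h : ∀ (i : ℤ) (s t : ℝ), s ∈ Icc (0 : ℝ) 1 → t ∈ Icc (0 : ℝ) 1 → Mid m i s → Mid m i t →
      |X s - X t| ≤ del m) :
    ∃ ξ : ℝ, (m + 1 : ℝ) ≤ ξ ∧ ∀ t ∈ Icc (0 : ℝ) 1,
      0.99 - 2 * maj (2 * Real.pi * (16 ^ m * t)) ≤ Real.cos (2 * Real.pi * (ξ * X t)) := by
  have hp : (0 : ℝ) < 16 ^ m := by positivity
  set y : Fin (16 ^ m) → ℝ := fun i => X ((i + 1 / 2) / 16 ^ m) with hy
  obtain ⟨q, hq1, hq2, hq3⟩ := dirichlet (16 ^ m) 100 (by norm_num) (fun i => (m + 1) * y i)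
  have hq1' : (1 : ℝ) ≤ q := by exact_mod_cast hq1
  have hq2' : (q : ℝ) ≤ 100 ^ (16 ^ m) := by exact_mod_cast hq2
  have hm0 : (0 : ℝ) < m + 1 := by positivity
  refine ⟨(m + 1) * q, by nlinarith, fun t ht => ?_⟩
  have hcos1 : -1 ≤ Real.cos (2 * Real.pi * ((m + 1) * q * X t)) := Real.neg_one_le_cos _
  by_cases hJ : ∃ i : ℤ, Mid m i t
  · obtain ⟨i, hi⟩ := hJ
    have h0 : 0 ≤ i := by
      by_contra hneg
      have : (i : ℝ) ≤ -1 := by exact_mod_cast (by omega : i ≤ -1)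
      have := hi.2
      have : 0 ≤ 16 ^ m * t := mul_nonneg hp.le ht.1
      linarith
    have h1 : i < 16 ^ m := by
      have h2 := hi.1
      have h3 : 16 ^ m * t ≤ 16 ^ m := by nlinarith [ht.2]
      have h4 : (i : ℝ) < 16 ^ m := by linarith
      exact_mod_cast h4
    obtain ⟨k, rfl⟩ := Int.eq_ofNat_of_zero_le h0
    have hk : k < 16 ^ m := by exact_mod_cast h1
    have hmid : Mid m (k : ℤ) (((k : ℝ) + 1 / 2) / 16 ^ m) := by
      unfold Mid
      rw [mul_div_cancel₀ _ hp.ne']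
      push_cast
      constructor <;> linarith
    have hin : (((k : ℝ) + 1 / 2) / 16 ^ m) ∈ Icc (0 : ℝ) 1 := by
      constructor
      · positivity
      · rw [div_le_one hp]
        have : (k : ℝ) + 1 ≤ 16 ^ m := by exact_mod_cast hk
        linarith
    have hd := h (k : ℤ) t _ ht hin hi hmid
    obtain ⟨p, hpq⟩ := hq3 ⟨k, hk⟩
    have hyk : y ⟨k, hk⟩ = X (((k : ℝ) + 1 / 2) / 16 ^ m) := rfl
    rw [hyk] at hpq
    have hclose : |(m + 1) * q * X t - p| ≤ 1 / 50 := by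
      have e : (m + 1) * q * X t - p = (m + 1) * q * (X t - X (((k : ℝ) + 1 / 2) / 16 ^ m)) +
          (q * ((m + 1) * X (((k : ℝ) + 1 / 2) / 16 ^ m)) - p) := by ring
      rw [e]
      refine (abs_add_le _ _).trans ?_
      have g1 : |(m + 1) * q * (X t - X (((k : ℝ) + 1 / 2) / 16 ^ m))| ≤ 1 / 100 := by
        rw [abs_mul, abs_of_pos (by positivity : (0 : ℝ) < (m + 1) * q)]
        calc (m + 1) * (q : ℝ) * |X t - X (((k : ℝ) + 1 / 2) / 16 ^ m)|
            ≤ (m + 1) * 100 ^ (16 ^ m) * del m := by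
              have := abs_nonneg (X t - X (((k : ℝ) + 1 / 2) / 16 ^ m))
              gcongr
          _ = 1 / 100 := by
              unfold del
              field_simp
      have g2 : |(q : ℝ) * ((m + 1) * X (((k : ℝ) + 1 / 2) / 16 ^ m)) - p| ≤ 1 / 100 := by
        simpa using hpq
      linarith
    have hc := cos_near p (by norm_num) hclose
    have hmaj := maj_nonneg (2 * Real.pi * (16 ^ m * t))
    norm_num at hc ⊢
    linarith
  · push Not at hJ
    set s : ℝ := 16 ^ m * t with hs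
    have hfr : Int.fract s < 1 / 16 ∨ 15 / 16 < Int.fract s := by
      by_contra hcon
      push Not at hcon
      apply hJ ⌊s⌋
      have e : s = ⌊s⌋ + Int.fract s := (Int.floor_add_fract s).symm
      unfold Mid
      rw [← hs]
      constructor <;> linarith [hcon.1, hcon.2]
    have hcos : 0.9 ≤ Real.cos (2 * Real.pi * s) := by
      rcases hfr with hf | hf
      · have h1 : |s - (⌊s⌋ : ℤ)| ≤ 1 / 16 := by
          rw [← Int.fract, abs_of_nonneg (Int.fract_nonneg _)]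
          exact hf.le
        have := cos_near ⌊s⌋ (by norm_num) h1
        norm_num at this ⊢
        linarith
      · have h1 : |s - ((⌊s⌋ + 1 : ℤ) : ℝ)| ≤ 1 / 16 := by
          have e : s - ((⌊s⌋ + 1 : ℤ) : ℝ) = Int.fract s - 1 := by
            unfold Int.fract
            push_cast
            ring
          rw [e, abs_le]
          have := Int.fract_lt_one s
          constructor <;> linarith
        have := cos_near (⌊s⌋ + 1) (by norm_num) h1
        norm_num at this ⊢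
        linarith
    have hmaj : 1 ≤ maj (2 * Real.pi * s) := by
      unfold maj
      have h1 : 1 ≤ (1 + Real.cos (2 * Real.pi * s)) / 1.9 := by
        rw [le_div_iff₀ (by norm_num)]
        norm_num at hcos ⊢
        linarith
      nlinarith
    norm_num at hmaj ⊢
    linarith

/-! ### Fourier side -/

theorem ft_re (μ : Measure (ℝ × ℝ)) [IsFiniteMeasure μ] (ξ : ℝ × ℝ) :
    (ft μ ξ).re = ∫ x : ℝ × ℝ, Real.cos (2 * Real.pi * (ξ.1 * x.1 + ξ.2 * x.2)) ∂μ := by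
  unfold ft
  have hint : Integrable (fun x : ℝ × ℝ =>
      Complex.exp (-(2 * Real.pi * Complex.I * ((ξ.1 * x.1 + ξ.2 * x.2 : ℝ) : ℂ)))) μ := by
    refine Integrable.of_bound (C := 1) ?_ (Eventually.of_forall fun x => ?_)
    · exact (by fun_prop : Continuous fun x : ℝ × ℝ =>
        Complex.exp (-(2 * Real.pi * Complex.I * ((ξ.1 * x.1 + ξ.2 * x.2 : ℝ) : ℂ)))
        ).aestronglyMeasurable
    · rw [show -(2 * Real.pi * Complex.I * ((ξ.1 * x.1 + ξ.2 * x.2 : ℝ) : ℂ)) =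
        ((-(2 * Real.pi * (ξ.1 * x.1 + ξ.2 * x.2)) : ℝ) : ℂ) * Complex.I by push_cast; ring,
        Complex.norm_exp_ofReal_mul_I]
  have := integral_re hint
  simp only [RCLike.re_to_complex] at this
  rw [← this]
  refine integral_congr_ae (Eventually.of_forall fun x => ?_)
  simp only
  rw [show -(2 * Real.pi * Complex.I * ((ξ.1 * x.1 + ξ.2 * x.2 : ℝ) : ℂ)) =
        ((-(2 * Real.pi * (ξ.1 * x.1 + ξ.2 * x.2)) : ℝ) : ℂ) * Complex.I by push_cast; ring,
    Complex.exp_ofReal_mul_I_re, Real.cos_neg]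

theorem re_tendsto {μ : Measure (ℝ × ℝ)} (h : Tendsto (ft μ) (cocompact (ℝ × ℝ)) (𝓝 0))
    {u : ℕ → ℝ × ℝ} (hu : Tendsto (fun n => ‖u n‖) atTop atTop) :
    Tendsto (fun n => (ft μ (u n)).re) atTop (𝓝 0) := by
  have h1 : Tendsto u atTop (cocompact (ℝ × ℝ)) := by
    rw [← Metric.cobounded_eq_cocompact]
    exact tendsto_norm_atTop_iff_cobounded.mp hu
  have h2 := (Complex.continuous_re.tendsto 0).comp (h.comp h1)
  rw [Complex.zero_re] at h2
  exact h2

theorem int_cos (μ : Measure (ℝ × ℝ)) [IsFiniteMeasure μ] (a b : ℝ) :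
    Integrable (fun x : ℝ × ℝ => Real.cos (2 * Real.pi * (a * x.1 + b * x.2))) μ := by
  refine Integrable.of_bound (C := 1) ?_ (Eventually.of_forall fun x => ?_)
  · exact (by fun_prop : Continuous fun x : ℝ × ℝ =>
      Real.cos (2 * Real.pi * (a * x.1 + b * x.2))).aestronglyMeasurable
  · exact Real.abs_cos_le_one _

/-- The deterministic statement. -/
theorem no_rajchman {X : ℝ → ℝ}
    (h : ∀ᶠ m : ℕ in atTop, ∀ (i : ℤ) (s t : ℝ), s ∈ Icc (0 : ℝ) 1 → t ∈ Icc (0 : ℝ) 1 →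
      Mid m i s → Mid m i t → |X s - X t| ≤ del m)
    {μ : Measure (ℝ × ℝ)} (hμ : μ (graph X)ᶜ = 0) : ¬ IsRajchman μ := by
  rintro ⟨hne, hfin, hR⟩
  have hae : ∀ᵐ x ∂μ, x.1 ∈ Icc (0 : ℝ) 1 ∧ x.2 = X x.1 := by
    rw [ae_iff]
    exact hμ
  -- the frequencies
  have hex : ∀ m : ℕ, ∃ ξ : ℝ, (m + 1 : ℝ) ≤ ξ ∧
      ((∀ (i : ℤ) (s t : ℝ), s ∈ Icc (0 : ℝ) 1 → t ∈ Icc (0 : ℝ) 1 →
        Mid m i s → Mid m i t → |X s - X t| ≤ del m) → ∀ t ∈ Icc (0 : ℝ) 1,
      0.99 - 2 * maj (2 * Real.pi * (16 ^ m * t)) ≤ Real.cos (2 * Real.pi * (ξ * X t))) := by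
    intro m
    by_cases hm : ∀ (i : ℤ) (s t : ℝ), s ∈ Icc (0 : ℝ) 1 → t ∈ Icc (0 : ℝ) 1 →
        Mid m i s → Mid m i t → |X s - X t| ≤ del m
    · obtain ⟨ξ, h1, h2⟩ := exists_freq hm
      exact ⟨ξ, h1, fun _ => h2⟩
    · exact ⟨m + 1, le_rfl, fun h => absurd h hm⟩
  choose ξ hξ1 hξ2 using hex
  have hineq : ∀ᶠ m : ℕ in atTop, 0.99 * μ.real univ - 2 * ((3 / 2 * μ.real univ +
      2 * (ft μ (16 ^ m, 0)).re + 1 / 2 * (ft μ (2 * 16 ^ m, 0)).re) / 3.61) ≤
      (ft μ (0, ξ m)).re := by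
    filter_upwards [h] with m hm
    rw [ft_re, ft_re, ft_re]
    simp only [zero_mul, add_zero, zero_add]
    have i1 := int_cos μ (16 ^ m) 0
    have i2 := int_cos μ (2 * 16 ^ m) 0
    have i3 := int_cos μ 0 (ξ m)
    simp only [zero_mul, add_zero, zero_add] at i1 i2 i3
    have e : 0.99 * μ.real univ - 2 * ((3 / 2 * μ.real univ +
        2 * (∫ x : ℝ × ℝ, Real.cos (2 * Real.pi * (16 ^ m * x.1)) ∂μ) +
        1 / 2 * (∫ x : ℝ × ℝ, Real.cos (2 * Real.pi * (2 * 16 ^ m * x.1)) ∂μ)) / 3.61) =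
        ∫ x : ℝ × ℝ, (0.99 - 2 * maj (2 * Real.pi * (16 ^ m * x.1))) ∂μ := by
      have e1 : ∀ x : ℝ × ℝ, 0.99 - 2 * maj (2 * Real.pi * (16 ^ m * x.1)) =
          (0.99 - 3 / 3.61) - 4 / 3.61 * Real.cos (2 * Real.pi * (16 ^ m * x.1)) -
            1 / 3.61 * Real.cos (2 * Real.pi * (2 * 16 ^ m * x.1)) := by
        intro x
        rw [maj_eq, show 2 * (2 * Real.pi * (16 ^ m * x.1)) =
          2 * Real.pi * (2 * 16 ^ m * x.1) by ring]
        ring
      simp only [e1]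
      have j0 : Integrable (fun _ : ℝ × ℝ => (0.99 - 3 / 3.61 : ℝ)) μ := integrable_const _
      have j1 : Integrable (fun x : ℝ × ℝ =>
        4 / 3.61 * Real.cos (2 * Real.pi * (16 ^ m * x.1))) μ := i1.const_mul _
      have j2 : Integrable (fun x : ℝ × ℝ =>
        1 / 3.61 * Real.cos (2 * Real.pi * (2 * 16 ^ m * x.1))) μ := i2.const_mul _
      have j3 : Integrable (fun x : ℝ × ℝ => 0.99 - 3 / 3.61 -
        4 / 3.61 * Real.cos (2 * Real.pi * (16 ^ m * x.1))) μ := j0.sub j1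
      rw [integral_sub j3 j2, integral_sub j0 j1, integral_const, integral_const_mul,
        integral_const_mul, smul_eq_mul]
      ring
    rw [e]
    refine integral_mono_ae ?_ i3 ?_
    · refine (integrable_const _).sub (Integrable.const_mul ?_ _)
      have : (fun x : ℝ × ℝ => maj (2 * Real.pi * (16 ^ m * x.1))) = fun x =>
          (3 / 2 + 2 * Real.cos (2 * Real.pi * (16 ^ m * x.1)) +
            1 / 2 * Real.cos (2 * Real.pi * (2 * 16 ^ m * x.1))) / 3.61 := by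
        funext x
        rw [maj_eq, show 2 * (2 * Real.pi * (16 ^ m * x.1)) =
          2 * Real.pi * (2 * 16 ^ m * x.1) by ring]
      rw [this]
      exact (((integrable_const _).add (i1.const_mul _)).add (i2.const_mul _)).div_const _
    · filter_upwards [hae] with x hx
      rw [hx.2]
      exact hξ2 m hm x.1 hx.1
  -- pass to the limit
  have hnat : Tendsto (fun m : ℕ => (m : ℝ) + 1) atTop atTop :=
    tendsto_atTop_add_const_right _ _ tendsto_natCast_atTop_atTop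
  have hpow : Tendsto (fun m : ℕ => (16 : ℝ) ^ m) atTop atTop :=
    tendsto_pow_atTop_atTop_of_one_lt (by norm_num)
  have t1 : Tendsto (fun m : ℕ => (ft μ (16 ^ m, 0)).re) atTop (𝓝 0) := by
    refine re_tendsto hR (tendsto_atTop_mono (fun m => ?_) hpow)
    rw [Prod.norm_def]
    exact le_max_of_le_left (le_abs_self _)
  have t2 : Tendsto (fun m : ℕ => (ft μ (2 * 16 ^ m, 0)).re) atTop (𝓝 0) := by
    refine re_tendsto hR (tendsto_atTop_mono (fun m => ?_) hpow)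
    rw [Prod.norm_def]
    refine le_max_of_le_left (le_trans ?_ (le_abs_self _))
    have : (0 : ℝ) < 16 ^ m := by positivity
    simp only
    linarith
  have t3 : Tendsto (fun m : ℕ => (ft μ (0, ξ m)).re) atTop (𝓝 0) := by
    refine re_tendsto hR (tendsto_atTop_mono (fun m => ?_) hnat)
    rw [Prod.norm_def]
    exact le_max_of_le_right ((hξ1 m).trans (le_abs_self _))
  have t4 : Tendsto (fun m : ℕ => 0.99 * μ.real univ - 2 * ((3 / 2 * μ.real univ +
      2 * (ft μ (16 ^ m, 0)).re + 1 / 2 * (ft μ (2 * 16 ^ m, 0)).re) / 3.61)) atTop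
      (𝓝 (0.99 * μ.real univ - 2 * ((3 / 2 * μ.real univ + 2 * 0 + 1 / 2 * 0) / 3.61))) :=
    tendsto_const_nhds.sub (((((tendsto_const_nhds).add (t1.const_mul 2)).add
      (t2.const_mul (1 / 2))).div_const 3.61).const_mul 2)
  have hle := le_of_tendsto_of_tendsto t4 t3 hineq
  have h0 : μ.real univ ≤ 0 := by
    norm_num at hle
    linarith
  have h1 : μ.real univ = 0 := le_antisymm h0 measureReal_nonneg
  rw [measureReal_eq_zero_iff, Measure.measure_univ_eq_zero] at h1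
  exact hne h1

/-! ### Brownian motion -/

/-- The unit interval. -/
abbrev K : Type := Icc (0 : ℝ≥0) 1

instance : Nonempty K := ⟨⟨0, by simp⟩⟩

/-- A dense sequence. -/
noncomputable def dd : ℕ → K := TopologicalSpace.denseSeq K

/-- Large increment over a short time. -/
def Ev (I : Finset ℝ≥0) (h δ : ℝ) : Set (I → ℝ) :=
  {x | ∃ s t : I, |((s : ℝ≥0) : ℝ) - ((t : ℝ≥0) : ℝ)| ≤ h ∧ δ < |x s - x t|}

theorem Ev_meas (I : Finset ℝ≥0) (h δ : ℝ) : MeasurableSet (Ev I h δ) := by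
  have e : Ev I h δ = ⋃ s : I, ⋃ t : I,
      {x | |((s : ℝ≥0) : ℝ) - ((t : ℝ≥0) : ℝ)| ≤ h ∧ δ < |x s - x t|} := by
    ext x
    simp [Ev]
  rw [e]
  refine MeasurableSet.iUnion fun s => MeasurableSet.iUnion fun t => ?_
  by_cases hst : |((s : ℝ≥0) : ℝ) - ((t : ℝ≥0) : ℝ)| ≤ h
  · simp only [hst, true_and]
    exact measurableSet_lt measurable_const (by fun_prop)
  · simp [hst]

/-- Uniform bound for the law of Brownian motion. -/
def Good (h δ c : ℝ) : Prop :=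
  ∀ I : Finset ℝ≥0, (∀ t ∈ I, t ≤ 1) →
    BrownianReal.projectiveFamily I (Ev I h δ) ≤ ENNReal.ofReal c

section BM

variable {Ω : Type*} [MeasurableSpace Ω] {P : Measure Ω} {B : ℝ≥0 → Ω → ℝ}

theorem prob_eq (hB : IsBrownianReal B P) (I : Finset ℝ≥0) (h δ : ℝ) :
    P {ω | ∃ s t : I, |((s : ℝ≥0) : ℝ) - ((t : ℝ≥0) : ℝ)| ≤ h ∧ δ < |B s ω - B t ω|} =
      BrownianReal.projectiveFamily I (Ev I h δ) :=
  (hB.hasLaw I).measure_eq (Ev_meas I h δ)

/-- The bad event. -/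
def badD (B : ℝ≥0 → Ω → ℝ) (h δ : ℝ) : Set Ω :=
  {ω | ∃ i j : ℕ, |((dd i : ℝ≥0) : ℝ) - ((dd j : ℝ≥0) : ℝ)| ≤ h ∧
    δ < |B (dd i) ω - B (dd j) ω|}

theorem badD_le (hB : IsBrownianReal B P) {h δ c : ℝ} (hg : Good h δ c) :
    P (badD B h δ) ≤ ENNReal.ofReal c := by
  have e : badD B h δ = ⋃ n : ℕ, {ω | ∃ i j : ℕ, i < n ∧ j < n ∧
      |((dd i : ℝ≥0) : ℝ) - ((dd j : ℝ≥0) : ℝ)| ≤ h ∧ δ < |B (dd i) ω - B (dd j) ω|} := by
    ext ω
    simp only [badD, mem_ofPred_eq, mem_iUnion]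
    constructor
    · rintro ⟨i, j, h1, h2⟩
      exact ⟨max i j + 1, i, j, by omega, by omega, h1, h2⟩
    · rintro ⟨n, i, j, _, _, h1, h2⟩
      exact ⟨i, j, h1, h2⟩
  have hmono : Monotone fun n : ℕ => {ω | ∃ i j : ℕ, i < n ∧ j < n ∧
      |((dd i : ℝ≥0) : ℝ) - ((dd j : ℝ≥0) : ℝ)| ≤ h ∧ δ < |B (dd i) ω - B (dd j) ω|} := by
    intro m n hmn ω hω
    obtain ⟨i, j, h1, h2, h3⟩ := hω
    exact ⟨i, j, h1.trans_le hmn, h2.trans_le hmn, h3⟩
  rw [e, hmono.measure_iUnion]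
  refine iSup_le fun n => ?_
  set I : Finset ℝ≥0 := (Finset.range n).image fun i => (dd i : ℝ≥0) with hI
  refine le_trans (measure_mono ?_) ((prob_eq hB I h δ).le.trans (hg I ?_))
  · rintro ω ⟨i, j, h1, h2, h3⟩
    exact ⟨⟨dd i, Finset.mem_image.mpr ⟨i, Finset.mem_range.mpr h1, rfl⟩⟩,
      ⟨dd j, Finset.mem_image.mpr ⟨j, Finset.mem_range.mpr h2, rfl⟩⟩, h3⟩
  · intro t ht
    obtain ⟨i, _, rfl⟩ := Finset.mem_image.mp ht
    exact (dd i).2.2

theorem dense_pair {f : ℝ≥0 → ℝ} (hf : Continuous f) {h δ : ℝ} {u v : ℝ≥0} (hu : u ≤ 1)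
    (hv : v ≤ 1) (huv : |(u : ℝ) - v| < h) (hd : δ < |f u - f v|) :
    ∃ i j : ℕ, |((dd i : ℝ≥0) : ℝ) - ((dd j : ℝ≥0) : ℝ)| ≤ h ∧ δ < |f (dd i) - f (dd j)| := by
  set O : Set (K × K) := {q | |((q.1 : ℝ≥0) : ℝ) - ((q.2 : ℝ≥0) : ℝ)| < h ∧
    δ < |f q.1 - f q.2|} with hO
  have hOo : IsOpen O := by
    have c1 : Continuous fun q : K × K => (q.1 : ℝ≥0) := continuous_subtype_val.comp continuous_fst
    have c2 : Continuous fun q : K × K => (q.2 : ℝ≥0) := continuous_subtype_val.comp continuous_snd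
    have o1 : IsOpen {q : K × K | |((q.1 : ℝ≥0) : ℝ) - ((q.2 : ℝ≥0) : ℝ)| < h} :=
      isOpen_lt ((NNReal.continuous_coe.comp c1).sub (NNReal.continuous_coe.comp c2)).abs
        continuous_const
    have o2 : IsOpen {q : K × K | δ < |f q.1 - f q.2|} :=
      isOpen_lt continuous_const ((hf.comp c1).sub (hf.comp c2)).abs
    exact o1.inter o2
  have hne : O.Nonempty := ⟨(⟨u, ⟨bot_le, hu⟩⟩, ⟨v, ⟨bot_le, hv⟩⟩), huv, hd⟩
  have hdense : DenseRange (Prod.map dd dd) :=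
    (TopologicalSpace.denseRange_denseSeq K).prodMap (TopologicalSpace.denseRange_denseSeq K)
  obtain ⟨⟨i, j⟩, hij⟩ := hdense.exists_mem_open hOo hne
  exact ⟨i, j, hij.1.le, hij.2⟩

theorem exists_good [IsProbabilityMeasure P] (hB : IsBrownianReal B P) {δ c : ℝ} (hδ : 0 < δ)
    (hc : 0 < c) : ∃ h : ℝ, 0 < h ∧ h ≤ 1 ∧ Good h δ c := by
  set T : ℕ → Set Ω := fun n => badD B (2 / ((n : ℝ) + 1)) δ with hT
  have hTm : ∀ n, NullMeasurableSet (T n) P := by
    intro n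
    have e : T n = ⋃ i : ℕ, ⋃ j : ℕ, {ω | |((dd i : ℝ≥0) : ℝ) - ((dd j : ℝ≥0) : ℝ)| ≤
        2 / ((n : ℝ) + 1) ∧ δ < |B (dd i) ω - B (dd j) ω|} := by
      ext ω
      simp [hT, badD]
    rw [e]
    refine NullMeasurableSet.iUnion fun i => NullMeasurableSet.iUnion fun j => ?_
    by_cases hst : |((dd i : ℝ≥0) : ℝ) - ((dd j : ℝ≥0) : ℝ)| ≤ 2 / ((n : ℝ) + 1)
    · simp only [hst, true_and]
      refine nullMeasurableSet_lt aemeasurable_const ?_
      exact ((hB.aemeasurable (dd i)).sub (hB.aemeasurable (dd j))).norm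
    · simp [hst]
  have hanti : Antitone T := by
    rintro m n hmn ω ⟨i, j, h1, h2⟩
    refine ⟨i, j, h1.trans ?_, h2⟩
    gcongr
  have hnull : P (⋂ n, T n) = 0 := by
    refine measure_mono_null ?_ (ae_iff.mp hB.cont)
    intro ω hω hcont
    have hcont' : Continuous fun t => B t ω := hcont
    have huc := (isCompact_Icc (a := (0 : ℝ≥0)) (b := 1)).uniformContinuousOn_of_continuous
      hcont'.continuousOn
    rw [Metric.uniformContinuousOn_iff] at huc
    obtain ⟨η, hη, hη2⟩ := huc δ hδ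
    have hlim : Tendsto (fun n : ℕ => 2 / ((n : ℝ) + 1)) atTop (𝓝 0) := by
      have := (tendsto_one_div_add_atTop_nhds_zero_nat (𝕜 := ℝ)).const_mul 2
      rw [mul_zero] at this
      refine this.congr fun n => ?_
      ring
    obtain ⟨n, hn⟩ := ((tendsto_order.1 hlim).2 η hη).exists
    rw [mem_iInter] at hω
    obtain ⟨i, j, h1, h2⟩ := hω n
    have h3 := hη2 (dd i) (dd i).2 (dd j) (dd j).2 (by
      rw [NNReal.dist_eq]
      exact h1.trans_lt hn)
    rw [Real.dist_eq] at h3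
    exact absurd h2 (not_lt.mpr h3.le)
  have hlim := tendsto_measure_iInter_atTop (μ := P) hTm hanti ⟨0, measure_ne_top P _⟩
  rw [hnull] at hlim
  obtain ⟨n, hn⟩ := ((tendsto_order.1 hlim).2 (ENNReal.ofReal c)
    (ENNReal.ofReal_pos.mpr hc)).exists
  have hpos : (0 : ℝ) < 1 / ((n : ℝ) + 1) := Nat.one_div_pos_of_nat
  refine ⟨1 / ((n : ℝ) + 1), hpos, ?_, fun I hI => ?_⟩
  · rw [div_le_one (by positivity)]
    have : (0 : ℝ) ≤ n := Nat.cast_nonneg n
    linarith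
  · rw [← prob_eq hB]
    refine le_trans (measure_mono_ae ?_) hn.le
    filter_upwards [hB.cont] with ω hcont hω
    obtain ⟨s, t, h1, h2⟩ := hω
    have h3 : |((s : ℝ≥0) : ℝ) - ((t : ℝ≥0) : ℝ)| < 2 / ((n : ℝ) + 1) := by
      refine h1.trans_lt ?_
      have : 2 / ((n : ℝ) + 1) = 1 / ((n : ℝ) + 1) + 1 / ((n : ℝ) + 1) := by ring
      linarith
    exact dense_pair (f := fun t => B t ω) hcont (hI s s.2) (hI t t.2) h3 h2

end BM

open Classical in
/-- The scales `h_m`. -/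
noncomputable def hh (m : ℕ) : ℝ :=
  if H : ∃ h : ℝ, 0 < h ∧ h ≤ 1 ∧ Good h (del m) ((1 / 2) ^ m) then H.choose else 1

theorem hh_pos (m : ℕ) : 0 < hh m := by
  unfold hh
  split_ifs with H
  · exact H.choose_spec.1
  · exact one_pos

theorem hh_le (m : ℕ) : hh m ≤ 1 := by
  unfold hh
  split_ifs with H
  · exact H.choose_spec.2.1
  · exact le_rfl

theorem hh_good {m : ℕ} (H : ∃ h : ℝ, 0 < h ∧ h ≤ 1 ∧ Good h (del m) ((1 / 2) ^ m)) :
    Good (hh m) (del m) ((1 / 2) ^ m) := by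
  unfold hh
  rw [dif_pos H]
  exact H.choose_spec.2.2

/-- The time change. -/
noncomputable def VV (t : ℝ) : ℝ≥0 := ⟨V hh t, V_nonneg hh_pos hh_le t⟩

/-- **Negative answer.**  There is a continuous strictly increasing `V : [0,1] → [0,∞)` such that for
every Brownian motion `B` (on any probability space) almost surely the graph of `t ↦ B_{V(t)}` over
`[0,1]` supports no Rajchman measure. -/
theorem result : ∃ V : ℝ → ℝ≥0, ContinuousOn V (Icc 0 1) ∧ StrictMonoOn V (Icc 0 1) ∧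
    ∀ {Ω : Type*} [MeasurableSpace Ω] (P : Measure Ω) [IsProbabilityMeasure P]
      (B : ℝ≥0 → Ω → ℝ), IsBrownianReal B P →
      ∀ᵐ ω ∂P, ∀ μ : Measure (ℝ × ℝ), μ (graph fun t => B (V t) ω)ᶜ = 0 → ¬ IsRajchman μ := by
  refine ⟨VV, ?_, ?_, ?_⟩
  · apply Continuous.continuousOn
    exact (V_cont hh_pos hh_le).subtype_mk _
  · intro s hs t ht hst
    exact V_strict hh_pos hh_le hs ht hst
  · intro Ω _ P _ B hB
    have hgood : ∀ m, Good (hh m) (del m) ((1 / 2) ^ m) := fun m =>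
      hh_good (exists_good hB (del_pos m) (by positivity))
    have hsum : ∑' m, P (badD B (hh m) (del m)) ≠ ∞ := by
      have h1 : ∑' m, P (badD B (hh m) (del m)) ≤ ∑' m : ℕ, ENNReal.ofReal ((1 / 2) ^ m) :=
        ENNReal.tsum_le_tsum fun m => badD_le hB (hgood m)
      have h2 : ∑' m : ℕ, ENNReal.ofReal ((1 / 2) ^ m) ≠ ∞ := by
        rw [← ENNReal.ofReal_tsum_of_nonneg (fun n => by positivity)
          (summable_geometric_of_lt_one (by norm_num) (by norm_num))]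
        exact ENNReal.ofReal_ne_top
      exact ne_top_of_le_ne_top h2 h1
    filter_upwards [ae_eventually_notMem hsum, hB.cont] with ω hev hcont μ hμ
    refine no_rajchman ?_ hμ
    filter_upwards [hev] with m hm i s t hs ht hms hmt
    by_contra hcon
    push Not at hcon
    apply hm
    have hVle : ∀ t, VV t ≤ 1 := by
      intro t
      rw [← NNReal.coe_le_coe]
      exact (V_le hh_pos hh_le t).trans (by norm_num)
    have hV : |((VV s : ℝ≥0) : ℝ) - ((VV t : ℝ≥0) : ℝ)| < hh m := by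
      have h3 := V_flat hh_pos hh_le m i hms hmt
      have h4 := hh_pos m
      exact lt_of_le_of_lt h3 (by linarith)
    exact dense_pair (f := fun t => B t ω) hcont (hVle s) (hVle t) hV hcon

end Pool.Agent.Results.MP_4f24d6_pr.NoRajchman
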